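import Pool.Agent.Helper37.Mader.Menger

set_option autoImplicit false

/-!
# A digraph without removable paths (MP_88432c_co)

A `4`-connected digraph on `68` vertices with all in- and out-degrees at least `10 = 2 * 4 + 3 - 1`
such that the deletion of any directed path on `3` vertices destroys `4`-connectivity.

The digraph is a blow-up of a digraph on `20` nodes (two blocks of ten nodes
`t, a, b, c, M, x, a', b', c', t'` with `4, 5, 3, 3, 3, 1, 5, 3, 3, 4` vertices): vertices of the
same node are joined in both directions, and otherwise the arcs are given by `R`.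
-/

namespace Pool.Agent.Helper90.Mader

open Pool.Agent.Helper37.Mader

/-- the node of a vertex -/
def nd (v : ℕ) : ℕ :=
  (52267282922216576866834654478876789506048 / 16 ^ (v % 34)) % 16 + 10 * (v / 34)

/-- the arcs between nodes -/
def R (p q : ℕ) : Bool :=
  Nat.testBit 346999886814606947824228252077140812894694483176045686915864209977926250460051413524930339628961296525980643977098551301451335574065906611762880306631795060543938875693205733607138295545900 (32 * p + q)

/-- nodes on the left of the separation of the node `q` -/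
def inI (q r : ℕ) : Bool :=
  Nat.testBit 555850781488374536353413843585637468290906902348686215135721732196057123357394652689872543631440856003675638051663616060445691308960232024661110982065275142681333902143934078230465451392000 (32 * q + r)

/-- nodes on the right of the separation of the node `q` -/
def inJ (q r : ℕ) : Bool :=
  Nat.testBit 1086708381930241102030582813333844101071847082788265880822859872759267989913196587305884113299815738748419375589517954115711317987720183823473085770606871029668800434586101452125427991550 (32 * q + r)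

/-- the digraph -/
def adj (u v : Fin 68) : Prop := u ≠ v ∧ (nd u = nd v ∨ R (nd u) (nd v) = true)

instance : DecidableRel adj := fun u v => by unfold adj; infer_instance

/-- nodes which are not contained in separators with four vertices -/
def big (q : ℕ) : Bool := q % 10 == 1 || q % 10 == 3 || q % 10 == 6 || q % 10 == 8

theorem nd_lt : ∀ v : Fin 68, nd v < 20 := by decide +kernel

theorem deg_out : ∀ v : Fin 68, 10 ≤ (Finset.univ.filter (fun w => adj v w)).card := by
  decide +kernel

theorem deg_in : ∀ v : Fin 68, 10 ≤ (Finset.univ.filter (fun w => adj w v)).card := by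
  decide +kernel

/-- the vertices of a node -/
def cl (q : ℕ) : Finset (Fin 68) := Finset.univ.filter (fun v => nd v = q)

theorem cl_card : ∀ j : Fin 2, ∀ i : Fin 10,
    (cl (10 * (j : ℕ) + i)).card = ([4, 5, 3, 3, 3, 1, 5, 3, 3, 4] : List ℕ)[i] := by
  decide +kernel

theorem mem_cl {q : ℕ} {v : Fin 68} : v ∈ cl q ↔ nd v = q := by
  simp [cl]

/-- the left side -/
def AA (q : ℕ) : Finset (Fin 68) := Finset.univ.filter (fun v => inI q (nd v) = true)

/-- the right side -/
def BB (q : ℕ) : Finset (Fin 68) := Finset.univ.filter (fun v => inJ q (nd v) = true)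

theorem card_AA : ∀ q : Fin 20, 4 ≤ (AA q).card := by decide +kernel

theorem card_BB : ∀ q : Fin 20, 4 ≤ (BB q).card := by decide +kernel

theorem card_TT : ∀ q : Fin 20, ((AA q ∪ BB q)ᶜ).card = if big q then 6 else 4 := by
  decide +kernel

theorem nodes_sep : ∀ q r s : Fin 20, inI q r = true → inJ q s = true →
    r ≠ s ∧ R r s = false := by decide +kernel

theorem not_in : ∀ q : Fin 20, inI q q = false ∧ inJ q q = false := by decide +kernel

theorem big_nonadj : ∀ r s : Fin 20, big r = true → big s = true → R r s = false := by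
  decide +kernel

theorem sep_AB (q : ℕ) (hq : q < 20) : Sep adj (AA q) (BB q) := by
  intro a ha b hb
  rw [AA, Finset.mem_filter] at ha
  rw [BB, Finset.mem_filter] at hb
  have h := nodes_sep ⟨q, hq⟩ ⟨nd a, nd_lt a⟩ ⟨nd b, nd_lt b⟩ ha.2 hb.2
  have h1 : nd a ≠ nd b := fun hh => h.1 (Fin.ext hh)
  refine ⟨fun hh => h1 (by rw [hh]), ?_⟩
  rintro ⟨_, h2 | h2⟩
  · exact h1 h2
  · rw [h.2] at h2
    exact Bool.false_ne_true h2

/-- no path on three vertices can be removed -/
theorem blocked (P : Fin 3 → Fin 68) (hinj : Function.Injective P)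
    (hadj : ∀ i j : Fin 3, i.val + 1 = j.val → adj (P i) (P j)) :
    ∃ a ∉ Set.range P, ∃ b ∉ Set.range P, a ≠ b ∧
      ¬ PathsIn adj (((Finset.univ.image P)ᶜ : Finset (Fin 68)) : Set (Fin 68)) 4 a b := by
  classical
  have hcardP : (Finset.univ.image P).card = 3 := by
    rw [Finset.card_image_of_injective _ hinj, Finset.card_univ, Fintype.card_fin]
  -- the general step
  have main : ∀ q : ℕ, q < 20 → ((AA q ∪ BB q)ᶜ \ Finset.univ.image P).card ≤ 3 →
      ∃ a ∉ Set.range P, ∃ b ∉ Set.range P, a ≠ b ∧
        ¬ PathsIn adj (((Finset.univ.image P)ᶜ : Finset (Fin 68)) : Set (Fin 68)) 4 a b := by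
    intro q hq hc
    have hA : (AA q \ Finset.univ.image P).Nonempty := by
      rw [← Finset.card_pos]
      have h1 := card_AA ⟨q, hq⟩
      have h2 := Finset.le_card_sdiff (Finset.univ.image P) (AA q)
      simp only at h1
      omega
    have hB : (BB q \ Finset.univ.image P).Nonempty := by
      rw [← Finset.card_pos]
      have h1 := card_BB ⟨q, hq⟩
      have h2 := Finset.le_card_sdiff (Finset.univ.image P) (BB q)
      simp only at h1
      omega
    obtain ⟨a, ha⟩ := hA
    obtain ⟨b, hb⟩ := hB
    rw [Finset.mem_sdiff] at ha hb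
    have hs := sep_AB q hq
    refine ⟨a, ?_, b, ?_, (hs a ha.1 b hb.1).1, ?_⟩
    · rintro ⟨i, hi⟩
      exact ha.2 (Finset.mem_image.2 ⟨i, Finset.mem_univ _, hi⟩)
    · rintro ⟨i, hi⟩
      exact hb.2 (Finset.mem_image.2 ⟨i, Finset.mem_univ _, hi⟩)
    · intro hp
      have h1 := le_of_paths hs ha.1 hb.1 hp
      have h2 : (Finset.univ.image P)ᶜ \ (AA q ∪ BB q) = (AA q ∪ BB q)ᶜ \ Finset.univ.image P := by
        ext v
        simp only [Finset.mem_sdiff, Finset.mem_compl]
        tauto
      rw [h2] at h1
      omega
  by_cases hbig : ∃ i, big (nd (P i)) = false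
  · obtain ⟨i, hi⟩ := hbig
    have hq := nd_lt (P i)
    apply main (nd (P i)) hq
    have h1 := card_TT ⟨nd (P i), hq⟩
    simp only [hi, Bool.false_eq_true, if_false] at h1
    have hmem : P i ∈ (AA (nd (P i)) ∪ BB (nd (P i)))ᶜ := by
      have h2 := not_in ⟨nd (P i), hq⟩
      simp only at h2
      rw [Finset.mem_compl, Finset.mem_union, AA, BB, Finset.mem_filter, Finset.mem_filter,
        h2.1, h2.2]
      simp
    have h3 : (AA (nd (P i)) ∪ BB (nd (P i)))ᶜ \ Finset.univ.image P ⊆
        ((AA (nd (P i)) ∪ BB (nd (P i)))ᶜ).erase (P i) := by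
      intro v hv
      rw [Finset.mem_sdiff] at hv
      rw [Finset.mem_erase]
      refine ⟨?_, hv.1⟩
      rintro rfl
      exact hv.2 (Finset.mem_image.2 ⟨i, Finset.mem_univ _, rfl⟩)
    have h4 := Finset.card_le_card h3
    rw [Finset.card_erase_of_mem hmem, h1] at h4
    omega
  · push Not at hbig
    have hb : ∀ i, big (nd (P i)) = true := fun i => by
      have := hbig i
      simpa using this
    have hstep : ∀ i j : Fin 3, i.val + 1 = j.val → nd (P i) = nd (P j) := by
      intro i j hij
      obtain ⟨_, h2 | h2⟩ := hadj i j hij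
      · exact h2
      · have h3 := big_nonadj ⟨nd (P i), nd_lt _⟩ ⟨nd (P j), nd_lt _⟩ (hb i) (hb j)
        simp only at h3
        rw [h3] at h2
        exact absurd h2 Bool.false_ne_true
    have h01 := hstep 0 1 rfl
    have h12 := hstep 1 2 rfl
    have hall : ∀ i, nd (P i) = nd (P 0) := by
      intro i
      fin_cases i
      · rfl
      · exact h01.symm
      · exact (h01.trans h12).symm
    have hq := nd_lt (P 0)
    apply main (nd (P 0)) hq
    have h1 := card_TT ⟨nd (P 0), hq⟩
    simp only [hb 0, if_true] at h1
    have hsub : Finset.univ.image P ⊆ (AA (nd (P 0)) ∪ BB (nd (P 0)))ᶜ := by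
      intro v hv
      obtain ⟨i, _, rfl⟩ := Finset.mem_image.1 hv
      have h2 := not_in ⟨nd (P 0), hq⟩
      simp only at h2
      rw [Finset.mem_compl, Finset.mem_union, AA, BB, Finset.mem_filter, Finset.mem_filter,
        hall i, h2.1, h2.2]
      simp
    rw [Finset.card_sdiff_of_subset hsub, h1, hcardP]

end Pool.Agent.Helper90.Mader
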