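import Pool.Agent.Helper90.Mader.Blocked

set_option autoImplicit false

/-!
# The digraph of `Blocked` is `4`-connected
-/

namespace Pool.Agent.Helper90.Mader

open Pool.Agent.Helper37.Mader

/-- arcs inside a block: from the middle to the left, from the right to the middle, and the arcs
used in the proof -/
theorem arcs_block : ∀ j : Fin 2,
    (∀ i : Fin 10, (i : ℕ) < 6 → R (10 * j + 4) (10 * j + i) = true ∨ (i : ℕ) = 4) ∧
    (∀ i : Fin 10, (i : ℕ) < 6 → R (10 * j + 5) (10 * j + i) = true ∨ (i : ℕ) = 5) ∧
    (∀ i : Fin 10, 4 ≤ (i : ℕ) → R (10 * j + i) (10 * j + 4) = true ∨ (i : ℕ) = 4) ∧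
    (∀ i : Fin 10, 4 ≤ (i : ℕ) → R (10 * j + i) (10 * j + 5) = true ∨ (i : ℕ) = 5) := by
  decide +kernel

theorem arcs_left : ∀ j : Fin 2,
    R (10 * j + 1) (10 * j + 4) = true ∧ R (10 * j + 1) (10 * j + 2) = true ∧
    R (10 * j + 2) (10 * j + 3) = true ∧ R (10 * j + 3) (10 * j + 5) = true ∧
    R (10 * j + 2) (10 * j + 1) = true ∧ R (10 * j + 3) (10 * j + 2) = true ∧
    R (10 * j + 0) (10 * j + 2) = true ∧ R (10 * j + 0) (10 * j + 5) = true := by
  decide +kernel

theorem arcs_right : ∀ j : Fin 2,
    R (10 * j + 4) (10 * j + 6) = true ∧ R (10 * j + 7) (10 * j + 6) = true ∧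
    R (10 * j + 8) (10 * j + 7) = true ∧ R (10 * j + 5) (10 * j + 8) = true ∧
    R (10 * j + 6) (10 * j + 7) = true ∧ R (10 * j + 7) (10 * j + 8) = true ∧
    R (10 * j + 7) (10 * j + 9) = true ∧ R (10 * j + 5) (10 * j + 9) = true := by
  decide +kernel

theorem arcs_between : R 9 10 = true ∧ R 19 0 = true := by decide +kernel

section

variable {A B : Finset (Fin 68)}

/-- a set meets a node -/
def hit (A : Finset (Fin 68)) (q : ℕ) : Prop := ∃ v ∈ A, nd v = q

theorem hit_sep (hs : Sep adj A B) {q r : ℕ} (hq : hit A q) (hr : hit B r) :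
    q ≠ r ∧ R q r = false := by
  obtain ⟨u, hu, rfl⟩ := hq
  obtain ⟨v, hv, rfl⟩ := hr
  obtain ⟨h1, h2⟩ := hs u hu v hv
  refine ⟨fun h => h2 ⟨h1, Or.inl h⟩, ?_⟩
  by_contra h
  exact h2 ⟨h1, Or.inr (by simpa using h)⟩

theorem cl_sub {q : ℕ} (h1 : ¬ hit A q) (h2 : ¬ hit B q) : cl q ⊆ TT A B := by
  intro v hv
  rw [mem_cl] at hv
  rw [mem_TT]
  exact ⟨fun h => h1 ⟨v, h, hv⟩, fun h => h2 ⟨v, h, hv⟩⟩

theorem one_hit (hc : (TT A B).card ≤ 3) {q : ℕ} (hq : 4 ≤ (cl q).card) : hit A q ∨ hit B q := by
  by_contra h
  rw [not_or] at h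
  have := Finset.card_le_card (cl_sub h.1 h.2)
  omega

theorem two_hit (hc : (TT A B).card ≤ 3) {q r : ℕ} (hqr : q ≠ r)
    (hq : 4 ≤ (cl q).card + (cl r).card) : hit A q ∨ hit B q ∨ hit A r ∨ hit B r := by
  by_contra h
  rw [not_or, not_or, not_or] at h
  have h1 := Finset.union_subset (cl_sub h.1 h.2.1) (cl_sub h.2.2.1 h.2.2.2)
  have h2 : Disjoint (cl q) (cl r) := by
    rw [Finset.disjoint_left]
    intro v hv hv'
    rw [mem_cl] at hv hv'
    exact hqr (hv.symm.trans hv')
  have h3 := Finset.card_le_card h1
  rw [Finset.card_union_of_disjoint h2] at h3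
  omega

/-- a block does not meet both sides -/
theorem block (hs : Sep adj A B) (hc : (TT A B).card ≤ 3) (j : Fin 2) (i l : Fin 10)
    (hi : hit A (10 * j + i)) (hl : hit B (10 * j + l)) : False := by
  have hcl := cl_card j
  have c1 : (cl (10 * (j : ℕ) + 1)).card = 5 := hcl 1
  have c2 : (cl (10 * (j : ℕ) + 2)).card = 3 := hcl 2
  have c3 : (cl (10 * (j : ℕ) + 3)).card = 3 := hcl 3
  have c4 : (cl (10 * (j : ℕ) + 4)).card = 3 := hcl 4
  have c5 : (cl (10 * (j : ℕ) + 5)).card = 1 := hcl 5
  have c6 : (cl (10 * (j : ℕ) + 6)).card = 5 := hcl 6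
  have c7 : (cl (10 * (j : ℕ) + 7)).card = 3 := hcl 7
  have c8 : (cl (10 * (j : ℕ) + 8)).card = 3 := hcl 8
  have S : ∀ {q r : ℕ}, hit A q → hit B r → R q r = true → False := by
    intro q r hq hr h
    have := (hit_sep hs hq hr).2
    rw [h] at this
    exact Bool.false_ne_true this.symm
  have S' : ∀ {q : ℕ}, hit A q → hit B q → False := fun hq hr => (hit_sep hs hq hr).1 rfl
  obtain ⟨m1, m2, m3, m4⟩ := arcs_block j
  obtain ⟨l1, l2, l3, l4, l5, l6, l7, l8⟩ := arcs_left j
  obtain ⟨r1, r2, r3, r4, r5, r6, r7, r8⟩ := arcs_right j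
  have h45 : hit A (10 * j + 4) ∨ hit B (10 * j + 4) ∨ hit A (10 * j + 5) ∨
      hit B (10 * j + 5) := two_hit hc (by omega) (by omega)
  have m45 : R (10 * j + 4) (10 * j + 5) = true := (m1 5 (by decide)).resolve_right (by decide)
  have m54 : R (10 * j + 5) (10 * j + 4) = true := (m2 4 (by decide)).resolve_right (by decide)
  by_cases side : hit A (10 * j + 4) ∨ hit A (10 * j + 5)
  · -- the middle is not met by `B`
    have n4 : ¬ hit B (10 * j + 4) := fun h => side.elim (fun h' => S' h' h) (fun h' => S h' h m54)
    have n5 : ¬ hit B (10 * j + 5) := fun h => side.elim (fun h' => S h' h m45) (fun h' => S' h' h)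
    -- `B` does not meet node 6
    have b6 : ¬ hit B (10 * j + 6) := by
      intro h6
      have a4 : ¬ hit A (10 * j + 4) := fun h => S h h6 r1
      have h7 : hit B (10 * j + 7) := by
        rcases two_hit (A := A) (B := B) (q := 10 * j + 4) (r := 10 * j + 7) hc (by omega)
          (by omega) with h | h | h | h
        · exact absurd h a4
        · exact absurd h n4
        · exact absurd h6 (fun h6 => S h h6 r2)
        · exact h
      have h8 : hit B (10 * j + 8) := by
        rcases two_hit (A := A) (B := B) (q := 10 * j + 4) (r := 10 * j + 8) hc (by omega)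
          (by omega) with h | h | h | h
        · exact absurd h a4
        · exact absurd h n4
        · exact absurd h7 (fun h7 => S h h7 r3)
        · exact h
      rcases two_hit (A := A) (B := B) (q := 10 * j + 4) (r := 10 * j + 5) hc (by omega)
        (by omega) with h | h | h | h
      · exact a4 h
      · exact n4 h
      · exact S h h8 r4
      · exact n5 h
    have b7 : ¬ hit B (10 * j + 7) := by
      intro h7
      rcases one_hit (A := A) (B := B) (q := 10 * j + 6) hc (by omega) with h | h
      · exact S h h7 r5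
      · exact b6 h
    have b8 : ¬ hit B (10 * j + 8) := by
      intro h8
      rcases two_hit (A := A) (B := B) (q := 10 * j + 5) (r := 10 * j + 7) hc (by omega)
        (by omega) with h | h | h | h
      · exact S h h8 r4
      · exact n5 h
      · exact S h h8 r6
      · exact b7 h
    have b9 : ¬ hit B (10 * j + 9) := by
      intro h9
      rcases two_hit (A := A) (B := B) (q := 10 * j + 5) (r := 10 * j + 7) hc (by omega)
        (by omega) with h | h | h | h
      · exact S h h9 r8
      · exact n5 h
      · exact S h h9 r7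
      · exact b7 h
    have bl : ∀ l : Fin 10, (l : ℕ) < 4 → ¬ hit B (10 * j + l) := by
      intro l hl4 hl
      rcases side with h | h
      · exact S h hl ((m1 l (by omega)).resolve_right (by omega))
      · exact S h hl ((m2 l (by omega)).resolve_right (by omega))
    fin_cases l
    · exact bl 0 (by decide) hl
    · exact bl 1 (by decide) hl
    · exact bl 2 (by decide) hl
    · exact bl 3 (by decide) hl
    · exact n4 hl
    · exact n5 hl
    · exact b6 hl
    · exact b7 hl
    · exact b8 hl
    · exact b9 hl
  · rw [not_or] at side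
    have side' : hit B (10 * j + 4) ∨ hit B (10 * j + 5) := by
      rcases h45 with h | h | h | h
      · exact absurd h side.1
      · exact Or.inl h
      · exact absurd h side.2
      · exact Or.inr h
    obtain ⟨n4, n5⟩ := side
    have a1 : ¬ hit A (10 * j + 1) := by
      intro h1
      have b4 : ¬ hit B (10 * j + 4) := fun h => S h1 h l1
      have h2 : hit A (10 * j + 2) := by
        rcases two_hit (A := A) (B := B) (q := 10 * j + 4) (r := 10 * j + 2) hc (by omega)
          (by omega) with h | h | h | h
        · exact absurd h n4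
        · exact absurd h b4
        · exact h
        · exact absurd h1 (fun h1 => S h1 h l2)
      have h3 : hit A (10 * j + 3) := by
        rcases two_hit (A := A) (B := B) (q := 10 * j + 4) (r := 10 * j + 3) hc (by omega)
          (by omega) with h | h | h | h
        · exact absurd h n4
        · exact absurd h b4
        · exact h
        · exact absurd h2 (fun h2 => S h2 h l3)
      rcases two_hit (A := A) (B := B) (q := 10 * j + 4) (r := 10 * j + 5) hc (by omega)
        (by omega) with h | h | h | h
      · exact n4 h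
      · exact b4 h
      · exact n5 h
      · exact S h3 h l4
    have a2 : ¬ hit A (10 * j + 2) := by
      intro h2
      rcases one_hit (A := A) (B := B) (q := 10 * j + 1) hc (by omega) with h | h
      · exact a1 h
      · exact S h2 h l5
    have a3 : ¬ hit A (10 * j + 3) := by
      intro h3
      rcases two_hit (A := A) (B := B) (q := 10 * j + 5) (r := 10 * j + 2) hc (by omega)
        (by omega) with h | h | h | h
      · exact n5 h
      · exact S h3 h l4
      · exact a2 h
      · exact S h3 h l6
    have a0 : ¬ hit A (10 * j + 0) := by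
      intro h0
      rcases two_hit (A := A) (B := B) (q := 10 * j + 5) (r := 10 * j + 2) hc (by omega)
        (by omega) with h | h | h | h
      · exact n5 h
      · exact S h0 h l8
      · exact a2 h
      · exact S h0 h l7
    have ar : ∀ l : Fin 10, 6 ≤ (l : ℕ) → ¬ hit A (10 * j + l) := by
      intro l hl6 hl
      rcases side' with h | h
      · exact S hl h ((m3 l (by omega)).resolve_right (by omega))
      · exact S hl h ((m4 l (by omega)).resolve_right (by omega))
    fin_cases i
    · exact a0 hi
    · exact a1 hi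
    · exact a2 hi
    · exact a3 hi
    · exact n4 hi
    · exact n5 hi
    · exact ar 6 (by decide) hi
    · exact ar 7 (by decide) hi
    · exact ar 8 (by decide) hi
    · exact ar 9 (by decide) hi

/-- the digraph is `4`-connected -/
theorem lower (hs : Sep adj A B) (hA : A.Nonempty) (hB : B.Nonempty) : 4 ≤ (TT A B).card := by
  by_contra hcon
  have hc : (TT A B).card ≤ 3 := by omega
  obtain ⟨u, hu⟩ := hA
  obtain ⟨v, hv⟩ := hB
  have node : ∀ x : Fin 68, ∃ j : Fin 2, ∃ i : Fin 10, nd x = 10 * (j : ℕ) + i := by
    intro x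
    have hx := nd_lt x
    exact ⟨⟨nd x / 10, by omega⟩, ⟨nd x % 10, by omega⟩, by simp only; omega⟩
  obtain ⟨j, i, hu'⟩ := node u
  obtain ⟨j', l, hv'⟩ := node v
  have hAi : hit A (10 * (j : ℕ) + i) := ⟨u, hu, hu'⟩
  have hBl : hit B (10 * (j' : ℕ) + l) := ⟨v, hv, hv'⟩
  have hcl0 : (cl 0).card = 4 := cl_card 0 0
  have hcl9 : (cl 9).card = 4 := cl_card 0 9
  have hcl10 : (cl 10).card = 4 := cl_card 1 0
  have hcl19 : (cl 19).card = 4 := cl_card 1 9
  fin_cases j <;> fin_cases j'
  · exact block hs hc 0 i l hAi hBl
  · -- `A` meets the first block, `B` the second one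
    have h9 : hit A 9 := by
      rcases one_hit (A := A) (B := B) (q := 9) hc (by omega) with h | h
      · exact h
      · exact (block hs hc 0 i 9 hAi h).elim
    have h10 : hit B 10 := by
      rcases one_hit (A := A) (B := B) (q := 10) hc (by omega) with h | h
      · exact (block hs hc 1 0 l h hBl).elim
      · exact h
    have := (hit_sep hs h9 h10).2
    rw [arcs_between.1] at this
    exact Bool.false_ne_true this.symm
  · have h19 : hit A 19 := by
      rcases one_hit (A := A) (B := B) (q := 19) hc (by omega) with h | h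
      · exact h
      · exact (block hs hc 1 i 9 hAi h).elim
    have h0 : hit B 0 := by
      rcases one_hit (A := A) (B := B) (q := 0) hc (by omega) with h | h
      · exact (block hs hc 0 0 l h hBl).elim
      · exact h
    have := (hit_sep hs h19 h0).2
    rw [arcs_between.2] at this
    exact Bool.false_ne_true this.symm
  · exact block hs hc 1 i l hAi hBl

end

end Pool.Agent.Helper90.Mader
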